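import Mathlib

namespace Pool.Agent.MP_06c78e_co

variable {V : Type*}

/-- The Euclidean plane. -/
abbrev Plane : Type := EuclideanSpace ℝ (Fin 2)

/-- A greedy drawing: an injective placement of the vertices in the plane such that for every
ordered pair `(s, t)` of distinct vertices some neighbour of `s` is closer to `t` than `s` is. -/
def IsGreedyDrawing (G : SimpleGraph V) (p : V → Plane) : Prop :=
  Function.Injective p ∧
    ∀ s t : V, s ≠ t → ∃ u : V, G.Adj s u ∧ dist (p u) (p t) < dist (p s) (p t)

/-- Biconnected: connected, at least three vertices and no cut vertex. -/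
def Biconnected (G : SimpleGraph V) : Prop :=
  3 ≤ Nat.card V ∧ G.Connected ∧ ∀ v : V, (G.induce {v}ᶜ).Connected

/-- `{x, y}` is a separation pair: deleting the two vertices leaves a disconnected graph. -/
def IsSepPair (G : SimpleGraph V) (x y : V) : Prop :=
  x ≠ y ∧ ¬ (G.induce {x, y}ᶜ).Preconnected

/-- The branch sets `A 0, A 1, A 2` and `B 0, B 1, B 2` form a `K₃,₃` minor of `G`: they are
pairwise disjoint, each induces a connected subgraph, and every `A i` is joined to every `B j`
by an edge. -/
def IsK33Minor (G : SimpleGraph V) (A B : Fin 3 → Set V) : Prop :=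
  (∀ i, (G.induce (A i)).Connected) ∧ (∀ j, (G.induce (B j)).Connected) ∧
    Pairwise (fun i i' => Disjoint (A i) (A i')) ∧ Pairwise (fun j j' => Disjoint (B j) (B j')) ∧
    (∀ i j, Disjoint (A i) (B j)) ∧ ∀ i j, ∃ a ∈ A i, ∃ b ∈ B j, G.Adj a b

end Pool.Agent.MP_06c78e_co
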