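import Mathlib

namespace Pool.Agent.MP_06c78e_co

variable {V : Type*}

/-- The connected components of `G - {a, b}`. -/
abbrev Comp (G : SimpleGraph V) (a b : V) : Type _ := (G.induce {a, b}ᶜ).ConnectedComponent

/-- The vertex set of a connected component of `G - {a, b}`. -/
def Piece (G : SimpleGraph V) (a b : V) (c : Comp G a b) : Set V := Subtype.val '' c.supp

/-- Every vertex of `C` lies on a path from `x` to `y` all of whose vertices are in `C`. -/
def IsChain (G : SimpleGraph V) (C : Set V) (x y : V) : Prop :=
  ∀ v ∈ C, ∃ w : G.Walk x y, w.IsPath ∧ v ∈ w.support ∧ ∀ u ∈ w.support, u ∈ C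

end Pool.Agent.MP_06c78e_co
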